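import Pool.Agent.Run7.h695.RB.Hall

/-!
# MP_0813d6_co, Q1 for `r = 3`: full rainbow matchings in families of 3-partite hypergraphs

A 3-partite hypergraph with the sides `V 0`, `V 1`, `V 2` is a finite set of edges
`e : ∀ k, V k` (the edge `e` consists of the vertices `e 0`, `e 1`, `e 2`, one in each side).
Two edges are disjoint if they differ in each side.

1. Q1 for `r = 3` (here `2 r - 2 = 4`): if `τ (⋃_{i ∈ I} H i) > 4 (|I| - 1)` for every nonempty
   set `I` of indices, then there is a full rainbow matching.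
2. A stronger form, with weights and deficiency: it is enough that every cover of
   `⋃_{i ∈ I} H i` has weight `> 4 (|I| - 1)`, where the vertices of the side `V 0` have weight
   `2` and the other vertices have weight `1`; and if every cover of `⋃_{i ∈ I} H i` has weight
   `> 4 (|I| - 1 - d)` for all `I` with more than `d` elements, then there is a rainbow matching
   which misses at most `d` of the hypergraphs.

The proof: the homology of the matching complex of a 3-partite hypergraph vanishes below the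
dimension given by a quarter of the weighted cover number (rainbow theorem for cochains of
helper62, written for `MP_cef6bb_co`), and a Hall theorem for cochains with deficiency, proved
by short exact sequences.
-/

universe u v w

namespace Pool.Agent.Results.MP_0813d6_co.ThreePartite

open Run7.h62 Run7.h62.RAINBOW Run7.h695.RB

/-- The sets `C k` of vertices of the sides `V k` form a cover of the edges in `S`. -/
def IsCover {V : Fin 3 → Type v} (S : Set (∀ k, V k)) (C : ∀ k, Finset (V k)) : Prop :=
  ∀ e ∈ S, ∃ k, e k ∈ C k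

theorem main {ι : Type w} [Fintype ι] {V : Fin 3 → Type v} (H : ι → Finset (∀ k, V k)) (d : ℕ)
    (h : ∀ I : Finset ι, d < I.card → ∀ C : ∀ k, Finset (V k),
      IsCover {e | ∃ i ∈ I, e ∈ H i} C →
        4 * (I.card - 1 - d) < 2 * (C 0).card + (C 1).card + (C 2).card) :
    ∃ J : Finset ι, Fintype.card ι ≤ J.card + d ∧ ∃ f : J → ∀ k, V k,
      (∀ i : J, f i ∈ H i) ∧ ∀ i j : J, i ≠ j → ∀ k, f i k ≠ f j k := by
  classical
  let E : Type (max v w) := Σ i : ι, {e // e ∈ H i}
  let c : E → ι := Sigma.fst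
  let W : Type v := Σ k, V k
  let G : E → Fin 3 → W := fun x k => ⟨k, x.2.1 k⟩
  have hex : ∀ (I : Finset ι) (n : ℕ), n + 1 + d ≤ I.card →
      Ex ℤ (fun s => Mat G Set.univ s ∧ ∀ e ∈ s, c e ∈ I) n := by
    intro I n hn
    refine ex_congr (fun s => ?_) (hom_conn_w (A := ℤ) G {x | c x ∈ I} (I.card - 1 - d)
      (fun U₀ U₁ U₂ hU => ?_) n (by omega))
    · simp only [Mat, Set.mem_ofPred_eq, Set.mem_univ, implies_true, true_and]
      tauto
    · by_contra hcon
      push Not at hcon
      let U : Fin 3 → Finset W := ![U₀, U₁, U₂]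
      let C : ∀ k, Finset (V k) := fun k =>
        (U k).preimage (fun x => (⟨k, x⟩ : W)) (fun a _ b _ hab => by
          simpa using (Sigma.mk.inj_iff.1 hab).2)
      have hCc : ∀ k, (C k).card ≤ (U k).card := fun k => by
        refine Finset.card_le_card_of_injOn (fun x => (⟨k, x⟩ : W)) (fun x hx => ?_)
          (fun a _ b _ hab => by simpa using (Sigma.mk.inj_iff.1 hab).2)
        exact Finset.mem_preimage.1 hx
      have h1 := h I (by omega) C (by
        rintro e ⟨i, hi, he⟩
        by_cases h0 : (⟨0, e 0⟩ : W) ∈ U₀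
        · exact ⟨0, Finset.mem_preimage.2 h0⟩
        · by_cases h1 : (⟨1, e 1⟩ : W) ∈ U₁
          · exact ⟨1, Finset.mem_preimage.2 h1⟩
          · exact ⟨2, Finset.mem_preimage.2 (hcon ⟨i, ⟨e, he⟩⟩ hi h0 h1)⟩)
      have e0 : (U 0).card = U₀.card := rfl
      have e1 : (U 1).card = U₁.card := rfl
      have e2 : (U 2).card = U₂.card := rfl
      have := hCc 0
      have := hCc 1
      have := hCc 2
      omega
  obtain ⟨s, hs, hcard⟩ := hall (E := E) (A := ℤ) c (K := Mat G Set.univ)
    (fun s t hst hs => ⟨fun _ _ => trivial, fun e he f hf => hs.2 e (hst he) f (hst hf)⟩)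
    ⟨by simp, by simp⟩ 1 one_ne_zero d hex
  refine ⟨s.image c, hcard, ?_⟩
  have hch : ∀ i : (s.image c : Finset ι), ∃ x ∈ s, c x = i := fun i => Finset.mem_image.1 i.2
  choose g hg1 hg2 using hch
  refine ⟨fun i => (g i).2.1, fun i => ?_, fun i j hij k hk => ?_⟩
  · have h1 : ∀ x : E, ∀ j : ι, c x = j → x.2.1 ∈ H j := by
      rintro x j rfl
      exact x.2.2
    exact h1 _ _ (hg2 i)
  · have hne : g i ≠ g j := fun he => hij (Subtype.ext (by rw [← hg2 i, ← hg2 j, he]))
    exact hs.2 (g i) (hg1 i) (g j) (hg1 j) hne k (Sigma.ext rfl (heq_of_eq hk))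

theorem result :
    (∀ (m : ℕ) (V : Fin 3 → Type v) (H : Fin m → Finset (∀ k, V k)),
      (∀ I : Finset (Fin m), I.Nonempty → ∀ C : ∀ k, Finset (V k),
        IsCover {e | ∃ i ∈ I, e ∈ H i} C →
          4 * (I.card - 1) < (C 0).card + (C 1).card + (C 2).card) →
      ∃ f : Fin m → ∀ k, V k, (∀ i, f i ∈ H i) ∧ ∀ i j, i ≠ j → ∀ k, f i k ≠ f j k) ∧
    (∀ (m d : ℕ) (V : Fin 3 → Type v) (H : Fin m → Finset (∀ k, V k)),
      (∀ I : Finset (Fin m), d < I.card → ∀ C : ∀ k, Finset (V k),
        IsCover {e | ∃ i ∈ I, e ∈ H i} C →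
          4 * (I.card - 1 - d) < 2 * (C 0).card + (C 1).card + (C 2).card) →
      ∃ J : Finset (Fin m), m ≤ J.card + d ∧ ∃ f : J → ∀ k, V k,
        (∀ i : J, f i ∈ H i) ∧ ∀ i j : J, i ≠ j → ∀ k, f i k ≠ f j k) := by
  refine ⟨fun m V H h => ?_, fun m d V H h => by simpa using main H d h⟩
  obtain ⟨J, hJ, f, hf1, hf2⟩ := main H 0 (fun I hI C hC => by
    have := h I (Finset.card_pos.1 hI) C hC
    omega)
  have hJ' : J = Finset.univ := by
    rw [Fintype.card_fin] at hJ
    refine Finset.eq_univ_of_card J ?_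
    have := Finset.card_le_univ J
    rw [Fintype.card_fin] at this ⊢
    omega
  subst hJ'
  exact ⟨fun i => f ⟨i, Finset.mem_univ i⟩, fun i => hf1 _,
    fun i j hij k => hf2 _ _ (fun he => hij (by simpa using he)) k⟩

end Pool.Agent.Results.MP_0813d6_co.ThreePartite
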